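import Pool.Agent.Helper677.RelFT

set_option autoImplicit false

open MeasureTheory Real Set Module FourierTransform Filter Topology
open scoped ENNReal

namespace Pool.Agent.Results.MP_9f4f5e_mp.BelowClassical

/-- Physical space `ℝ³`. -/
abbrev R3 : Type := EuclideanSpace ℝ (Fin 3)

/-- The configuration space `(ℝ³)^N` of `N` particles with its Euclidean structure. -/
abbrev Conf (N : ℕ) : Type := PiLp 2 (fun _ : Fin N => R3)

/-- Lebesgue measure on the configuration space. -/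
noncomputable abbrev vol (N : ℕ) : Measure (Conf N) := volume

/-- The Hilbert space `L²((ℝ³)^N; ℂ)`. -/
abbrev H (N : ℕ) : Type := Lp ℂ 2 (vol N)

/-- The values `ψ(x)` of `ψ ∈ L²`. -/
noncomputable def val {N : ℕ} (ψ : H N) : Conf N → ℂ := ψ

/-- The values of the `L²` Fourier transform of `ψ` (Mathlib's normalisation
`∫ exp(-2πi x·ξ) ψ(x) dx`). -/
noncomputable def FT {N : ℕ} (ψ : H N) : Conf N → ℂ := ⇑(𝓕 ψ : H N)

/-- The relativistic kinetic energy `T(ψ) = ∑ᵢ ∫ |kᵢ| |ψ̂(k)|² dk`, written in the variable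
`ξ = k / 2π`. -/
noncomputable def T {N : ℕ} (ψ : H N) : ℝ≥0∞ :=
  ∫⁻ ξ, ENNReal.ofReal ((∑ i, 2 * π * ‖ξ i‖) * ‖FT ψ ξ‖ ^ 2) ∂(vol N)

/-- The configuration `x` with the particles `i` and `j` exchanged. -/
noncomputable def exch {N : ℕ} (i j : Fin N) (x : Conf N) : Conf N :=
  WithLp.toLp 2 (fun k => x (Equiv.swap i j k))

/-- `ψ` changes sign when two of the variables are exchanged. -/
def Antisymm {N : ℕ} (ψ : H N) : Prop :=
  ∀ i j : Fin N, i ≠ j → ∀ᵐ x ∂(vol N), val ψ (exch i j x) = - val ψ x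

/-- The configuration `(x, y₁, …, yₙ)` of `n + 1` particles. -/
noncomputable def join {n : ℕ} (x : R3) (y : Fin n → R3) : Conf (n + 1) :=
  WithLp.toLp 2 (Fin.cons x y)

/-- The one-particle density `ρ_ψ(x) = N ∫ |ψ(x, x₂, …, x_N)|² dx₂ … dx_N`, `N = n + 1`. -/
noncomputable def density {n : ℕ} (ψ : H (n + 1)) (x : R3) : ℝ≥0∞ :=
  (n + 1 : ℕ) * ∫⁻ y : Fin n → R3, ENNReal.ofReal (‖val ψ (join x y)‖ ^ 2)

/-- `∫ ρ_ψ^{4/3}`. -/
noncomputable def intRho {n : ℕ} (ψ : H (n + 1)) : ℝ≥0∞ :=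
  ∫⁻ x : R3, density ψ x ^ (4 / 3 : ℝ)

/-- `‖ψ‖₂ = 1`. -/
def Normalised {N : ℕ} (ψ : H N) : Prop := ‖ψ‖ = 1

/-- The states over which the infimum runs: antisymmetric, normalised, of finite kinetic energy. -/
def Admissible {N : ℕ} (ψ : H N) : Prop :=
  Antisymm ψ ∧ Normalised ψ ∧ T ψ ≠ ∞

/-- The sharp constant `B₃`: the infimum over all `N = n + 1 ≥ 1` and all admissible `ψ` of
`T(ψ) / ∫ ρ_ψ^{4/3}`. -/
noncomputable def B3 : ℝ≥0∞ :=
  ⨅ (n : ℕ) (ψ : H (n + 1)) (_ : Admissible ψ), T ψ / intRho ψ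

/-- The semiclassical value `B₃ᶜ = (3/4)(6π²)^{1/3}`. -/
noncomputable def B3c : ℝ := 3 / 4 * (6 * π ^ 2) ^ (1 / 3 : ℝ)

open Pool.H677.Rel

/-! ### One particle -/

noncomputable def L : R3 ≃ₗᵢ[ℝ] Conf 1 :=
  LinearEquiv.isometryOfInner
    { toFun := fun x => WithLp.toLp 2 (fun _ => x)
      invFun := fun z => z 0
      map_add' := fun x y => rfl
      map_smul' := fun c x => rfl
      left_inv := fun x => rfl
      right_inv := fun z => by
        ext i
        rw [Subsingleton.elim i 0] }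
    (by intro x y; simp [PiLp.inner_apply] <;> rfl)

theorem L_apply (x : R3) : L x = WithLp.toLp 2 (fun _ => x) := rfl

theorem norm_one (ξ : Conf 1) : ‖ξ‖ = ‖ξ 0‖ := by
  simp [PiLp.norm_eq_of_L2]

theorem finrank_conf : finrank ℝ (Conf 1) = 3 := by
  rw [← LinearEquiv.finrank_eq (L : R3 ≃ₗᵢ[ℝ] Conf 1).toLinearEquiv]
  simp

theorem finrank_R3 : finrank ℝ R3 = 3 := by simp

/-- squared norm, kinetic energy and `∫ |g|^{8/3}` of the trial function -/
noncomputable def Mr (a : ℝ) : ℝ := π ^ (3 / 2 : ℝ) * Gamma (2 * a - 3 / 2) / Gamma (2 * a)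

noncomputable def Tr (a : ℝ) : ℝ :=
  4 * π * Gamma (a + 1 / 2) ^ 2 * (Gamma (2 * a - 1) / Gamma (2 * a + 1)) / Gamma a ^ 2

noncomputable def Ir (a : ℝ) : ℝ :=
  π ^ (3 / 2 : ℝ) * Gamma (8 * a / 3 - 3 / 2) / Gamma (8 * a / 3)

noncomputable def Rr (a : ℝ) : ℝ := Tr a * Mr a ^ (1 / 3 : ℝ) / Ir a

theorem Mr_pos {a : ℝ} (ha : 3 / 2 ≤ a) : 0 < Mr a := by
  have h1 : 0 < Gamma (2 * a - 3 / 2) := Gamma_pos_of_pos (by linarith)
  have h2 : 0 < Gamma (2 * a) := Gamma_pos_of_pos (by linarith)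
  unfold Mr; positivity

theorem Tr_pos {a : ℝ} (ha : 3 / 2 ≤ a) : 0 < Tr a := by
  have h1 : 0 < Gamma (a + 1 / 2) := Gamma_pos_of_pos (by linarith)
  have h2 : 0 < Gamma (2 * a - 1) := Gamma_pos_of_pos (by linarith)
  have h3 : 0 < Gamma (2 * a + 1) := Gamma_pos_of_pos (by linarith)
  have h4 : 0 < Gamma a := Gamma_pos_of_pos (by linarith)
  unfold Tr; positivity

theorem Ir_pos {a : ℝ} (ha : 3 / 2 ≤ a) : 0 < Ir a := by
  have h1 : 0 < Gamma (8 * a / 3 - 3 / 2) := Gamma_pos_of_pos (by linarith)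
  have h2 : 0 < Gamma (8 * a / 3) := Gamma_pos_of_pos (by linarith)
  unfold Ir; positivity

theorem trial {a : ℝ} (ha : 3 / 2 < a) :
    ∃ ψ : H (0 + 1), Admissible ψ ∧
      T ψ = ENNReal.ofReal (Tr a / Mr a) ∧
      intRho ψ = ENNReal.ofReal (Ir a / Mr a ^ (4 / 3 : ℝ)) := by
  have hM := Mr_pos ha.le
  have hT := Tr_pos ha.le
  have hI := Ir_pos ha.le
  have hg := memLp_g finrank_conf ha
  have hh := memLp_h finrank_conf ha
  -- the norm of the trial function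
  have hnorm : ‖hg.toLp (g (E := Conf 1) a)‖ ^ 2 = Mr a := by
    rw [Lp.norm_toLp]
    have h1 : eLpNorm (g (E := Conf 1) a) 2 volume ^ 2 = ENNReal.ofReal (Mr a) := by
      have h2 := eLpNorm_nnreal_pow_eq_lintegral (μ := (volume : Measure (Conf 1)))
        (f := g a) (p := 2) (by norm_num)
      have h3 : ∀ x : Conf 1, ‖g a x‖ₑ ^ ((2 : NNReal) : ℝ) =
          ENNReal.ofReal ((1 + ‖x‖ ^ 2) ^ (-(2 * a))) := by
        intro x
        have : ((2 : NNReal) : ℝ) = ((2 : ℕ) : ℝ) := by norm_num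
        rw [this, ENNReal.rpow_natCast, ← ofReal_norm, ← ENNReal.ofReal_pow (norm_nonneg _),
          sq_norm_g]
      simp only [h3] at h2
      rw [lint_pow finrank_conf (by linarith)] at h2
      have : ((2 : NNReal) : ℝ) = ((2 : ℕ) : ℝ) := by norm_num
      rw [this, ENNReal.rpow_natCast] at h2
      exact h2
    rw [← ENNReal.toReal_pow, h1, ENNReal.toReal_ofReal hM.le]
  set c : ℝ := 1 / ‖hg.toLp (g (E := Conf 1) a)‖ with hc
  have hnpos : 0 < ‖hg.toLp (g (E := Conf 1) a)‖ := by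
    by_contra hneg
    have : ‖hg.toLp (g (E := Conf 1) a)‖ = 0 := le_antisymm (not_lt.1 hneg) (norm_nonneg _)
    rw [this] at hnorm
    norm_num at hnorm
    linarith
  have hcpos : 0 < c := by positivity
  have hc2 : c ^ 2 = 1 / Mr a := by rw [hc, div_pow, hnorm, one_pow]
  let ψ : Lp ℂ 2 (volume : Measure (Conf 1)) := (c : ℂ) • hg.toLp (g (E := Conf 1) a)
  have hψ : ∀ᵐ x : Conf 1, ψ x = (c : ℂ) * g a x := by
    filter_upwards [Lp.coeFn_smul (c : ℂ) (hg.toLp (g (E := Conf 1) a)), hg.coeFn_toLp]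
      with x h1 h2
    change ((c : ℂ) • hg.toLp (g (E := Conf 1) a) : Lp ℂ 2 _) x = _
    rw [h1, Pi.smul_apply, h2, smul_eq_mul]
  have hFψ : (𝓕 ψ : Lp ℂ 2 (volume : Measure (Conf 1))) = (c : ℂ) • hh.toLp (h a) := by
    change (𝓕 ((c : ℂ) • hg.toLp (g (E := Conf 1) a)) : Lp ℂ 2 (volume : Measure (Conf 1))) = _
    rw [FourierTransform.fourier_smul,
      lp_fourier_eq (integrable_g finrank_conf ha) hg (fourier_g finrank_conf ha) hh]
  have hF : ∀ᵐ ξ : Conf 1, (𝓕 ψ : Lp ℂ 2 (volume : Measure (Conf 1))) ξ = (c : ℂ) * h a ξ := by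
    rw [hFψ]
    filter_upwards [Lp.coeFn_smul (c : ℂ) (hh.toLp (h (E := Conf 1) a)), hh.coeFn_toLp]
      with x h1 h2
    rw [h1, Pi.smul_apply, h2, smul_eq_mul]
  have hGa : 0 < Gamma a := Gamma_pos_of_pos (by linarith)
  have hG1 : 0 < Gamma (a + 1 / 2) := Gamma_pos_of_pos (by linarith)
  have hG2 : 0 < Gamma (2 * a - 1) := Gamma_pos_of_pos (by linarith)
  have hG3 : 0 < Gamma (2 * a + 1) := Gamma_pos_of_pos (by linarith)
  have hTψ : T ψ = ENNReal.ofReal (Tr a / Mr a) := by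
    unfold T FT
    have h1 : ∀ᵐ ξ : Conf 1, ENNReal.ofReal
        ((∑ i, 2 * π * ‖ξ i‖) * ‖(𝓕 ψ : Lp ℂ 2 (volume : Measure (Conf 1))) ξ‖ ^ 2) =
        ENNReal.ofReal (c ^ 2 / Gamma a ^ 2) *
          (ENNReal.ofReal (2 * π * ‖ξ‖) * K a ξ ^ 2) := by
      filter_upwards [hF] with ξ hξ
      rw [hξ, norm_mul, Complex.norm_real, norm_of_nonneg hcpos.le]
      have h2 : ‖h a ξ‖ = 1 / Gamma a * (K a ξ).toReal := by
        unfold h
        rw [Complex.norm_real, norm_of_nonneg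
          (mul_nonneg (by positivity) ENNReal.toReal_nonneg)]
      rw [h2]
      have h3 : K a ξ ^ 2 = ENNReal.ofReal ((K a ξ).toReal ^ 2) := by
        rw [ENNReal.ofReal_pow ENNReal.toReal_nonneg, ENNReal.ofReal_toReal (K_ne_top ha ξ)]
      rw [h3, ← ENNReal.ofReal_mul (by positivity), ← ENNReal.ofReal_mul (by positivity)]
      congr 1
      rw [norm_one ξ]
      simp only [Finset.univ_unique, Fin.default_eq_zero, Finset.sum_singleton]
      field_simp
    rw [lintegral_congr_ae h1, lintegral_const_mul' _ _ ENNReal.ofReal_ne_top]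
    have h2 := kin_lint (E := Conf 1) finrank_conf (a := a) (by linarith)
    unfold K
    rw [h2, ← ENNReal.ofReal_mul (by positivity), hc2]
    congr 1
    unfold Tr
    field_simp
  refine ⟨ψ, ⟨?_, ?_, ?_⟩, hTψ, ?_⟩
  · intro i j hij
    exact absurd (Fin.ext (by have := i.2; have := j.2; omega)) hij
  · change ‖(c : ℂ) • hg.toLp (g (E := Conf 1) a)‖ = 1
    rw [norm_smul, Complex.norm_real, norm_of_nonneg hcpos.le, hc]
    field_simp
  · rw [hTψ]; exact ENNReal.ofReal_ne_top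
  · -- the density
    have h1 : ∀ᵐ x : R3, ψ (L x) = (c : ℂ) * g a (L x) :=
      L.measurePreserving.quasiMeasurePreserving.ae hψ
    unfold intRho
    have h2 : ∀ᵐ x : R3, density (n := 0) ψ x ^ (4 / 3 : ℝ) =
        ENNReal.ofReal ((1 / Mr a) ^ (4 / 3 : ℝ)) *
          ENNReal.ofReal ((1 + ‖x‖ ^ 2) ^ (-(8 * a / 3))) := by
      filter_upwards [h1] with x hx
      unfold density val join
      rw [Measure.volume_pi_eq_dirac, lintegral_dirac]
      have e1 : (WithLp.toLp 2 (Fin.cons x (fun i : Fin 0 => isEmptyElim i) :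
          Fin (0 + 1) → R3) : Conf 1) = L x := by
        rw [L_apply]
        congr 1
        funext i
        have hi : i = 0 := Fin.ext (by have := i.2; simp only [Fin.val_zero]; omega)
        rw [hi]
        rfl
      rw [e1, hx, norm_mul, Complex.norm_real, norm_of_nonneg hcpos.le, mul_pow, sq_norm_g,
        L.norm_map, hc2]
      have e2 : (((0 + 1 : ℕ) : ℝ≥0∞)) = 1 := by norm_num
      rw [e2, one_mul, ENNReal.ofReal_rpow_of_nonneg (by positivity) (by norm_num),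
        ← ENNReal.ofReal_mul (by positivity)]
      congr 1
      rw [mul_rpow (by positivity) (by positivity), ← rpow_mul (by positivity)]
      congr 2
      ring
    rw [lintegral_congr_ae h2, lintegral_const_mul' _ _ ENNReal.ofReal_ne_top,
      lint_pow finrank_R3 (by linarith), ← ENNReal.ofReal_mul (by positivity)]
    congr 1
    rw [div_rpow zero_le_one hM.le, one_rpow]
    unfold Ir
    ring

theorem ratio_eq {a : ℝ} (ha : 3 / 2 ≤ a) :
    (Tr a / Mr a) / (Ir a / Mr a ^ (4 / 3 : ℝ)) = Rr a := by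
  have hM := Mr_pos ha
  have hI := Ir_pos ha
  unfold Rr
  have h1 : Mr a ^ (4 / 3 : ℝ) = Mr a * Mr a ^ (1 / 3 : ℝ) := by
    rw [show (4 / 3 : ℝ) = 1 + 1 / 3 by norm_num, rpow_add hM, rpow_one]
  rw [h1]
  field_simp

theorem B3_le {a : ℝ} (ha : 3 / 2 < a) : B3 ≤ ENNReal.ofReal (Rr a) := by
  obtain ⟨ψ, hψ, hT, hI⟩ := trial ha
  have hM := Mr_pos ha.le
  have hIp := Ir_pos ha.le
  calc B3 ≤ T ψ / intRho ψ :=
        (iInf_le _ 0).trans ((iInf_le _ ψ).trans (iInf_le _ hψ))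
    _ = ENNReal.ofReal (Rr a) := by
        rw [hT, hI, ← ENNReal.ofReal_div_of_pos (by positivity), ratio_eq ha.le]

theorem cont_Gamma {x : ℝ} (hx : 0 < x) : ContinuousAt Gamma x :=
  (differentiableAt_Gamma (fun m => by
    have : (0:ℝ) ≤ m := Nat.cast_nonneg m
    linarith [this])).continuousAt

theorem cont_Gamma_comp {f : ℝ → ℝ} {x : ℝ} (hf : ContinuousAt f x) (hx : 0 < f x) :
    ContinuousAt (fun a => Gamma (f a)) x :=
  ContinuousAt.comp (g := Gamma) (cont_Gamma hx) hf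

theorem cont_Rr : ContinuousAt Rr (3 / 2) := by
  have g1 : ContinuousAt (fun a : ℝ => Gamma (2 * a - 3 / 2)) (3 / 2) :=
    cont_Gamma_comp (by fun_prop) (by norm_num)
  have g2 : ContinuousAt (fun a : ℝ => Gamma (2 * a)) (3 / 2) :=
    cont_Gamma_comp (by fun_prop) (by norm_num)
  have g3 : ContinuousAt (fun a : ℝ => Gamma (a + 1 / 2)) (3 / 2) :=
    cont_Gamma_comp (by fun_prop) (by norm_num)
  have g4 : ContinuousAt (fun a : ℝ => Gamma (2 * a - 1)) (3 / 2) :=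
    cont_Gamma_comp (by fun_prop) (by norm_num)
  have g5 : ContinuousAt (fun a : ℝ => Gamma (2 * a + 1)) (3 / 2) :=
    cont_Gamma_comp (by fun_prop) (by norm_num)
  have g6 : ContinuousAt (fun a : ℝ => Gamma a) (3 / 2) := cont_Gamma (by norm_num)
  have g7 : ContinuousAt (fun a : ℝ => Gamma (8 * a / 3 - 3 / 2)) (3 / 2) :=
    cont_Gamma_comp (by fun_prop) (by norm_num)
  have g8 : ContinuousAt (fun a : ℝ => Gamma (8 * a / 3)) (3 / 2) :=
    cont_Gamma_comp (by fun_prop) (by norm_num)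
  have n2 : Gamma (2 * (3 / 2 : ℝ)) ≠ 0 := (Gamma_pos_of_pos (by norm_num)).ne'
  have n5 : Gamma (2 * (3 / 2 : ℝ) + 1) ≠ 0 := (Gamma_pos_of_pos (by norm_num)).ne'
  have n6 : Gamma (3 / 2 : ℝ) ^ 2 ≠ 0 := pow_ne_zero _ (Gamma_pos_of_pos (by norm_num)).ne'
  have n8 : Gamma (8 * (3 / 2 : ℝ) / 3) ≠ 0 := (Gamma_pos_of_pos (by norm_num)).ne'
  have cM : ContinuousAt Mr (3 / 2) := by
    unfold Mr
    exact (continuousAt_const.mul g1).div g2 n2
  have cI : ContinuousAt Ir (3 / 2) := by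
    unfold Ir
    exact (continuousAt_const.mul g7).div g8 n8
  have cT : ContinuousAt Tr (3 / 2) := by
    unfold Tr
    exact ((continuousAt_const.mul (g3.pow 2)).mul (g4.div g5 n5)).div (g6.pow 2) n6
  unfold Rr
  exact (cT.mul (cM.rpow_const (Or.inl (Mr_pos le_rfl).ne'))).div cI (Ir_pos le_rfl).ne'

theorem Rr_value : Rr (3 / 2) = 256 / (3 * (4 * π) ^ (4 / 3 : ℝ)) := by
  have e1 : Gamma (3 / 2 : ℝ) = √π / 2 := by
    rw [show (3 / 2 : ℝ) = 1 / 2 + 1 by norm_num, Gamma_add_one (by norm_num), Gamma_one_half_eq]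
    ring
  have e2 : Gamma (5 / 2 : ℝ) = 3 * √π / 4 := by
    rw [show (5 / 2 : ℝ) = 3 / 2 + 1 by norm_num, Gamma_add_one (by norm_num), e1]
    ring
  have e3 : Gamma (2 : ℝ) = 1 := by
    rw [show (2:ℝ) = (1:ℕ) + 1 by norm_num, Gamma_nat_eq_factorial]; norm_num
  have e4 : Gamma (3 : ℝ) = 2 := by
    rw [show (3:ℝ) = (2:ℕ) + 1 by norm_num, Gamma_nat_eq_factorial]; norm_num [Nat.factorial]
  have e5 : Gamma (4 : ℝ) = 6 := by
    rw [show (4:ℝ) = (3:ℕ) + 1 by norm_num, Gamma_nat_eq_factorial]; norm_num [Nat.factorial]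
  have hs : √π * √π = π := mul_self_sqrt pi_nonneg
  have hp : π ^ (3 / 2 : ℝ) = π * √π := by
    rw [show (3 / 2 : ℝ) = 1 + 1 / 2 by norm_num, rpow_add pi_pos, rpow_one, sqrt_eq_rpow]
  have hM : Mr (3 / 2) = π ^ 2 / 4 := by
    unfold Mr
    rw [show (2 * (3 / 2) - 3 / 2 : ℝ) = 3 / 2 by norm_num, show (2 * (3 / 2) : ℝ) = 3 by norm_num,
      e1, e4, hp]
    linear_combination (π / 4) * hs
  have hI : Ir (3 / 2) = π ^ 2 / 8 := by
    unfold Ir
    rw [show (8 * (3 / 2) / 3 - 3 / 2 : ℝ) = 5 / 2 by norm_num,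
      show (8 * (3 / 2) / 3 : ℝ) = 4 by norm_num, e2, e5, hp]
    linear_combination (π / 8) * hs
  have hT : Tr (3 / 2) = 8 / 3 := by
    unfold Tr
    rw [show (3 / 2 + 1 / 2 : ℝ) = 2 by norm_num, show (2 * (3 / 2) - 1 : ℝ) = 2 by norm_num,
      show (2 * (3 / 2) + 1 : ℝ) = 4 by norm_num, e1, e3, e5]
    have : (√π / 2) ^ 2 = π / 4 := by rw [div_pow, sq_sqrt pi_nonneg]; norm_num
    rw [this]
    have := pi_ne_zero
    field_simp
    norm_num
  have hpos1 : 0 ≤ Rr (3 / 2) := by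
    unfold Rr; rw [hT, hM, hI]; positivity
  have hpos2 : 0 ≤ 256 / (3 * (4 * π) ^ (4 / 3 : ℝ)) := by positivity
  have hcube : Rr (3 / 2) ^ 3 = (256 / (3 * (4 * π) ^ (4 / 3 : ℝ))) ^ 3 := by
    have c1 : ((π ^ 2 / 4) ^ (1 / 3 : ℝ)) ^ 3 = π ^ 2 / 4 := by
      rw [← rpow_natCast, ← rpow_mul (by positivity)]; norm_num
    have c2 : ((4 * π) ^ (4 / 3 : ℝ)) ^ 3 = (4 * π) ^ 4 := by
      rw [← rpow_natCast, ← rpow_mul (by positivity), ← rpow_natCast]; norm_num
    unfold Rr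
    rw [hT, hM, hI, div_pow, mul_pow, c1, div_pow (256 : ℝ), mul_pow (3 : ℝ), c2]
    have := pi_ne_zero
    field_simp
    norm_num
  exact (pow_left_inj₀ hpos1 hpos2 (by norm_num)).1 hcube

theorem value_lt : 256 / (3 * (4 * π) ^ (4 / 3 : ℝ)) < B3c := by
  unfold B3c
  have c2 : ((4 * π) ^ (4 / 3 : ℝ)) ^ 3 = (4 * π) ^ 4 := by
    rw [← rpow_natCast, ← rpow_mul (by positivity), ← rpow_natCast]; norm_num
  have c3 : ((6 * π ^ 2) ^ (1 / 3 : ℝ)) ^ 3 = 6 * π ^ 2 := by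
    rw [← rpow_natCast, ← rpow_mul (by positivity)]; norm_num
  refine lt_of_pow_lt_pow_left₀ 3 (by positivity) ?_
  rw [div_pow, mul_pow, c2, mul_pow (3 / 4 : ℝ), c3]
  have hπ : (3.1415 : ℝ) < π := pi_gt_d4
  have h6 : (3.1415 : ℝ) ^ 6 < π ^ 6 := pow_lt_pow_left₀ hπ (by norm_num) (by norm_num)
  rw [div_lt_iff₀ (by positivity)]
  nlinarith [h6]

/-- **The sharp constant is strictly below the semiclassical one.** -/
theorem result :
    B3 ≤ ENNReal.ofReal (256 / (3 * (4 * π) ^ (4 / 3 : ℝ))) ∧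
    256 / (3 * (4 * π) ^ (4 / 3 : ℝ)) < B3c ∧
    B3 < ENNReal.ofReal B3c ∧
    ∃ ψ : H (0 + 1), Admissible ψ ∧ intRho ψ ≠ ∞ ∧ T ψ < ENNReal.ofReal B3c * intRho ψ := by
  have h1 : B3 ≤ ENNReal.ofReal (256 / (3 * (4 * π) ^ (4 / 3 : ℝ))) := by
    rw [← Rr_value]
    have ht : Tendsto (fun a => ENNReal.ofReal (Rr a)) (𝓝[>] (3 / 2 : ℝ))
        (𝓝 (ENNReal.ofReal (Rr (3 / 2)))) :=
      (ENNReal.continuous_ofReal.tendsto _).comp (cont_Rr.tendsto.mono_left nhdsWithin_le_nhds)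
    exact ge_of_tendsto ht (by
      filter_upwards [self_mem_nhdsWithin] with a ha using B3_le ha)
  have hpos : 0 < B3c := by unfold B3c; positivity
  refine ⟨h1, value_lt, h1.trans_lt ((ENNReal.ofReal_lt_ofReal_iff hpos).2 value_lt), ?_⟩
  -- a one-particle state violating the semiclassical inequality
  have hev : ∀ᶠ a in 𝓝[>] (3 / 2 : ℝ), Rr a < B3c := by
    have : Rr (3 / 2) < B3c := by rw [Rr_value]; exact value_lt
    exact (cont_Rr.tendsto.mono_left nhdsWithin_le_nhds).eventually_lt_const this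
  obtain ⟨a, ha, hmem⟩ := (hev.and self_mem_nhdsWithin).exists
  have ha' : 3 / 2 < a := hmem
  obtain ⟨ψ, hψ, hT, hI⟩ := trial ha'
  have hM := Mr_pos ha'.le
  have hIp := Ir_pos ha'.le
  refine ⟨ψ, hψ, ?_, ?_⟩
  · rw [hI]; exact ENNReal.ofReal_ne_top
  · rw [hT, hI, ← ENNReal.ofReal_mul hpos.le]
    rw [ENNReal.ofReal_lt_ofReal_iff (by positivity)]
    have h2 := ratio_eq ha'.le
    rw [div_eq_iff (by positivity)] at h2
    rw [h2]
    exact mul_lt_mul_of_pos_right ha (by positivity)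

end Pool.Agent.Results.MP_9f4f5e_mp.BelowClassical
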